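import Pool.Agent.H59.CV.SMO

/-!
# (FMO): the first moment opened
-/

set_option autoImplicit false
set_option maxHeartbeats 400000

open NumberField NumberField.InfinitePlace Complex Filter Topology

namespace Pool.Agent.H69.CV

open Pool.Agent.H37.CV Pool.Agent.H28.RC Pool.Agent.H25.HK
open Pool.Agent.H59.CV (one_le_nm NB summable_nm3 ww idS_ne idS_sup nS_pos sup_mul of_sup_mul
  mul_ne)

section

variable {K : Type} [Field K] [NumberField K]

theorem nm_idS (S : Finset (PrI K)) : nm (idS S) = nS np S := by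
  unfold nm idS nS np nm
  rw [map_prod]
  push_cast
  rfl

/-- the terms of the first sum -/
noncomputable def fa (X : ℝ) (a : NI K) : ℂ :=
  ((nm a.1 ^ (-(1 / 2) : ℝ) : ℝ) : ℂ) * wf (nm a.1 / X)

theorem wf_bound (hWV : T_WV) : ∃ D : ℝ, 0 ≤ D ∧ ∀ n X : ℝ, 1 ≤ n → 0 < X →
    ‖((n ^ (-(1 / 2) : ℝ) : ℝ) : ℂ) * wf (n / X)‖ ≤ D * X ^ 3 * (n ^ 3)⁻¹ := by
  obtain ⟨D, hD⟩ := hWV.1 3
  have hD0 : 0 ≤ D := by
    have := (hD 1 one_pos).1
    refine le_trans ?_ this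
    positivity
  refine ⟨D, hD0, fun n X hn hX => ?_⟩
  have hn0 : 0 < n := by linarith
  have h1 := (hD (n / X) (by positivity)).1
  rw [← le_div_iff₀ (by positivity)] at h1
  have h3 : n ^ (-(1 / 2) : ℝ) ≤ 1 := Real.rpow_le_one_of_one_le_of_nonpos hn (by norm_num)
  rw [norm_mul, Complex.norm_real, Real.norm_of_nonneg (Real.rpow_nonneg hn0.le _)]
  calc n ^ (-(1 / 2) : ℝ) * ‖wf (n / X)‖ ≤ 1 * ‖wf (n / X)‖ :=
        mul_le_mul_of_nonneg_right h3 (norm_nonneg _)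
    _ = ‖wf (n / X)‖ := one_mul _
    _ ≤ D / (n / X) ^ 3 := h1
    _ = D * X ^ 3 * (n ^ 3)⁻¹ := by
      field_simp

theorem summable_fa (hWV : T_WV) {C : ℝ} (h : NB K C) {X : ℝ} (hX : 0 < X) :
    Summable (fun a : NI K => ‖fa X a‖) := by
  obtain ⟨D, hD0, hD⟩ := wf_bound hWV
  refine ((summable_nm3 h).mul_left (D * X ^ 3)).of_nonneg_of_le (fun _ => norm_nonneg _)
    fun a => ?_
  exact hD _ _ (one_le_nm a.2) hX

open scoped Classical in
/-- the terms of the sum of `lam` -/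
noncomputable def ks (X M : ℝ) (S : Finset (PrI K)) (n : Ideal (𝓞 K)) : ℂ :=
  if idS S ∣ n then (xw K M S : ℂ) * (((nm n ^ (-(1 / 2) : ℝ) : ℝ) : ℂ) *
    wf (nm n / (nS np S * X))) else 0

theorem lam_eq (X M : ℝ) (n : Ideal (𝓞 K)) :
    lam X M n * ((nm n ^ (-(1 / 2) : ℝ) : ℝ) : ℂ) = ∑ S ∈ DM K M, ks X M S n := by
  classical
  unfold lam
  rw [Finset.sum_filter, Finset.sum_mul]
  refine Finset.sum_congr rfl fun S _ => ?_
  unfold ks
  split_ifs with h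
  · ring
  · rw [zero_mul]

/-- the ideals in the relation with one -/
abbrev NN (m d : Ideal (𝓞 K)) : Type :=
  {n : Ideal (𝓞 K) // (n, (⊤ : Ideal (𝓞 K))) ∈ CP m d}

theorem NN_ne {m d : Ideal (𝓞 K)} (n : NN m d) : n.1 ≠ ⊥ := n.2.1

theorem norm_ks_le {D : ℝ} (hD0 : 0 ≤ D) (hD : ∀ n X : ℝ, 1 ≤ n → 0 < X →
    ‖((n ^ (-(1 / 2) : ℝ) : ℝ) : ℂ) * wf (n / X)‖ ≤ D * X ^ 3 * (n ^ 3)⁻¹) {X : ℝ} (hX : 0 < X)
    (M : ℝ) (S : Finset (PrI K)) (n : Ideal (𝓞 K)) (hn : n ≠ ⊥) :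
    ‖ks X M S n‖ ≤ |xw K M S| * (D * (nS np S * X) ^ 3) * (nm n ^ 3)⁻¹ := by
  have hS := nS_pos S
  have h1 := one_le_nm hn
  have h0 : 0 < nm n := by linarith
  have hq : 0 ≤ (D * (nS np S * X) ^ 3) * (nm n ^ 3)⁻¹ := by positivity
  have h2 := hD (nm n) (nS np S * X) h1 (mul_pos hS hX)
  have h3 : ‖(xw K M S : ℂ)‖ = |xw K M S| := by
    rw [Complex.norm_real, Real.norm_eq_abs]
  rw [mul_assoc]
  unfold ks
  split_ifs with hd
  · rw [norm_mul, h3]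
    exact mul_le_mul_of_nonneg_left h2 (abs_nonneg _)
  · rw [norm_zero]
    exact mul_nonneg (abs_nonneg _) hq

theorem summable_nn {C : ℝ} (h : NB K C) (m d : Ideal (𝓞 K)) :
    Summable (fun n : NN m d => (nm n.1 ^ 3)⁻¹) := by
  have hinj : Function.Injective (fun n : NN m d => (⟨n.1, NN_ne n⟩ : NI K)) := by
    intro a b hab
    have := congrArg Subtype.val hab
    exact Subtype.ext this
  have h1 := (summable_nm3 h).comp_injective hinj
  exact h1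

theorem summable_ks (hWV : T_WV) {C : ℝ} (h : NB K C) {X : ℝ} (hX : 0 < X) (M : ℝ)
    (S : Finset (PrI K)) (m d : Ideal (𝓞 K)) :
    Summable (fun n : NN m d => ‖ks X M S n.1‖) := by
  obtain ⟨D, hD0, hD⟩ := wf_bound hWV
  refine Summable.of_nonneg_of_le (fun _ => norm_nonneg _)
    (fun n => norm_ks_le hD0 hD hX M S n.1 (NN_ne n)) ?_
  exact (summable_nn h m d).mul_left _

theorem norm_psi_le {m : Ideal (𝓞 K)} {ψ : Ideal (𝓞 K) → ℂ} (h : PC m ψ) (I : Ideal (𝓞 K)) :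
    ‖ψ I‖ ≤ 1 := Pool.Agent.H59.CV.norm_le_one h I

theorem open1 {m : Ideal (𝓞 K)} {ψ : Ideal (𝓞 K) → ℂ} (h : PC m ψ) (X M : ℝ) :
    A1 X ψ * mol M ψ = ∑ S ∈ DM K M, ww M S * ∑' a : NI K, fa X a * ψ (a.1 * idS S) := by
  unfold mol
  rw [Finset.mul_sum]
  refine Finset.sum_congr rfl fun S _ => ?_
  have h1 : A1 X ψ * ψ (idS S) = ∑' a : NI K, fa X a * ψ (a.1 * idS S) := by
    unfold A1
    rw [← tsum_mul_right]
    refine tsum_congr fun a => ?_
    unfold fa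
    rw [h.mul]
    ring
  rw [← h1]
  unfold ww
  ring

theorem inner1 {m d : Ideal (𝓞 K)} (hfin : (Ch m d).Finite)
    (hOR : ∀ I J : Ideal (𝓞 K), I ≠ ⊥ → J ≠ ⊥ → I ⊔ m = ⊤ → J ⊔ m = ⊤ →
      (Rl m d I J → ∑ᶠ ψ ∈ Ch m d, ψ I * (starRingEnd ℂ) (ψ J) = nc m d) ∧
      (¬ Rl m d I J → ∑ᶠ ψ ∈ Ch m d, ψ I * (starRingEnd ℂ) (ψ J) = 0))
    (n : Ideal (𝓞 K)) (hn : n ≠ ⊥) :
    ((n, (⊤ : Ideal (𝓞 K))) ∈ CP m d → ∑ ψ ∈ hfin.toFinset, ψ n = nc m d) ∧
      ((n, (⊤ : Ideal (𝓞 K))) ∉ CP m d → ∑ ψ ∈ hfin.toFinset, ψ n = 0) := by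
  have hpc : ∀ ψ ∈ hfin.toFinset, PC m ψ := fun ψ hψ => (hfin.mem_toFinset.1 hψ).1
  have htop : (⊤ : Ideal (𝓞 K)) ≠ ⊥ := top_ne_bot
  have hsum : ∑ᶠ ψ ∈ Ch m d, ψ n * (starRingEnd ℂ) (ψ ⊤) = ∑ ψ ∈ hfin.toFinset, ψ n := by
    rw [finsum_mem_eq_finite_toFinset_sum _ hfin]
    refine Finset.sum_congr rfl fun ψ hψ => ?_
    rw [(hpc ψ hψ).one, map_one, mul_one]
  constructor
  · intro h
    rw [← hsum]
    exact (hOR n ⊤ hn htop h.2.2.2.1 (top_sup_eq _)).1 h.2.2.2.2.2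
  · intro h
    by_cases h1 : n ⊔ m = ⊤
    · rw [← hsum]
      refine (hOR n ⊤ hn htop h1 (top_sup_eq _)).2 fun h2 => h ?_
      exact ⟨hn, htop, sup_top_eq _, h1, top_sup_eq _, h2⟩
    · exact Finset.sum_eq_zero fun ψ hψ => (hpc ψ hψ).zero n h1

/-- the two sums for a fixed `S` are the same -/
theorem same (X M : ℝ) (m d : Ideal (𝓞 K)) (S : Finset (PrI K)) (c : ℂ) :
    ww M S * ∑' a : NI K, Set.indicator {a : NI K | (a.1 * idS S, (⊤ : Ideal (𝓞 K))) ∈ CP m d}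
      (fun a => c * fa X a) a = c * ∑' n : NN m d, ks X M S n.1 := by
  classical
  set A : Set (NI K) := {a : NI K | (a.1 * idS S, (⊤ : Ideal (𝓞 K))) ∈ CP m d} with hA
  have hS0 := idS_ne S
  have hSp := nS_pos S
  -- left
  have h1 : ∑' a : NI K, Set.indicator A (fun a => c * fa X a) a = ∑' a : A, c * fa X a.1 := by
    rw [← tsum_subtype]
  -- right
  let j : A → NN m d := fun a => ⟨a.1.1 * idS S, a.2⟩
  have hj : Function.Injective j := by
    intro a b hab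
    have h2 : a.1.1 * idS S = b.1.1 * idS S := congrArg Subtype.val hab
    exact Subtype.ext (Subtype.ext (mul_right_cancel₀ hS0 h2))
  have h3 : ∑' n : NN m d, ks X M S n.1 = ∑' a : A, ks X M S (j a).1 := by
    refine (hj.tsum_eq (f := fun n : NN m d => ks X M S n.1) ?_).symm
    intro n hn
    rw [Function.mem_support] at hn
    have hd : idS S ∣ n.1 := by
      by_contra hcon
      apply hn
      unfold ks
      rw [if_neg hcon]
    obtain ⟨b, hb⟩ := hd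
    have hb0 : b ≠ ⊥ := by
      rintro rfl
      rw [Ideal.mul_bot] at hb
      exact NN_ne n hb
    have hb' : b * idS S = n.1 := by rw [hb, mul_comm]
    refine ⟨⟨⟨b, hb0⟩, ?_⟩, Subtype.ext hb'⟩
    show (b * idS S, (⊤ : Ideal (𝓞 K))) ∈ CP m d
    rw [hb']
    exact n.2
  rw [h1, h3, ← tsum_mul_left, ← tsum_mul_left]
  refine tsum_congr fun a => ?_
  show ww M S * (c * fa X a.1) = c * ks X M S (a.1.1 * idS S)
  have ha := one_le_nm a.1.2
  have ha0 : 0 < nm a.1.1 := by linarith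
  unfold ks
  rw [if_pos (dvd_mul_left _ _), H59.CV.nm_mul, nm_idS]
  have e1 : nm a.1.1 * nS np S / (nS np S * X) = nm a.1.1 / X := by
    field_simp
  rw [e1, Real.mul_rpow ha0.le hSp.le]
  unfold ww fa
  push_cast
  ring

end

theorem pf_FMO (hOR : T_OR) (hWV : T_WV) (hDV : T_DV) : T_FMO := by
  classical
  intro K _ _ _ m d X M hm hmd hX hM hP
  obtain ⟨C, hC⟩ := (hDV K).2
  have hNB : NB K C := hC
  obtain ⟨hfin, hnc, hor⟩ := hOR K m d hm hmd
  have hsk : ∀ S ∈ DM K M, Summable (fun n : NN m d => ‖ks X M S n.1‖) :=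
    fun S _ => summable_ks hWV hNB hX M S m d
  refine ⟨?_, ?_⟩
  · refine (summable_sum hsk).of_nonneg_of_le (fun n => ?_) fun n => ?_
    · have := one_le_nm (NN_ne n)
      positivity
    · have h1 : ‖lam X M n.1‖ * nm n.1 ^ (-(1 / 2) : ℝ) =
          ‖lam X M n.1 * ((nm n.1 ^ (-(1 / 2) : ℝ) : ℝ) : ℂ)‖ := by
        have := one_le_nm (NN_ne n)
        rw [norm_mul, Complex.norm_real, Real.norm_of_nonneg (Real.rpow_nonneg (by linarith) _)]
      rw [h1, lam_eq]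
      exact norm_sum_le _ _
  · have hpc : ∀ ψ ∈ hfin.toFinset, PC m ψ := fun ψ hψ => (hfin.mem_toFinset.1 hψ).1
    have hR : ∑' n : NN m d, lam X M n.1 * ((nm n.1 ^ (-(1 / 2) : ℝ) : ℝ) : ℂ) =
        ∑ S ∈ DM K M, ∑' n : NN m d, ks X M S n.1 := by
      rw [tsum_congr fun n : NN m d => lam_eq X M n.1]
      exact Summable.tsum_finsetSum fun S hS => (hsk S hS).of_norm
    rw [hR, finsum_mem_eq_finite_toFinset_sum _ hfin]
    rw [Finset.sum_congr rfl fun ψ hψ => open1 (hpc ψ hψ) X M, Finset.sum_comm, Finset.mul_sum]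
    refine Finset.sum_congr rfl fun S hS => ?_
    rw [← same X M m d S (nc m d : ℂ), ← Finset.mul_sum]
    congr 1
    have hsum : ∀ ψ ∈ hfin.toFinset, Summable (fun a : NI K => fa X a * ψ (a.1 * idS S)) := by
      intro ψ hψ
      refine Summable.of_norm ((summable_fa hWV hNB hX).of_nonneg_of_le
        (fun _ => norm_nonneg _) fun a => ?_)
      rw [norm_mul]
      calc ‖fa X a‖ * ‖ψ (a.1 * idS S)‖ ≤ ‖fa X a‖ * 1 :=
            mul_le_mul_of_nonneg_left (norm_psi_le (hpc ψ hψ) _) (norm_nonneg _)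
        _ = _ := mul_one _
    rw [← Summable.tsum_finsetSum hsum]
    refine tsum_congr fun a => ?_
    rw [← Finset.mul_sum]
    have h1 := inner1 hfin hor (a.1 * idS S) (mul_ne a.2 (idS_ne S))
    by_cases ha : (a.1 * idS S, (⊤ : Ideal (𝓞 K))) ∈ CP m d
    · rw [h1.1 ha, Set.indicator_of_mem (by exact ha)]
      ring
    · rw [h1.2 ha, Set.indicator_of_notMem (by exact ha), mul_zero]

end Pool.Agent.H69.CV
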