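import Pool.Agent.H37.CV.Targets

/-!
# (LM): counting the pairs with a congruence
-/

set_option autoImplicit false

open NumberField NumberField.InfinitePlace

namespace Pool.Agent.H69.CV

open Pool.Agent.H37.CV Pool.Agent.H28.RC Pool.Agent.H25.HK

section LM

variable {K : Type} [Field K] [NumberField K]

/-- the size of a pair at `v` -/
noncomputable def sv (R₁ R₂ : ℝ) (a b : K) (v : InfinitePlace K) : ℝ := max (v a / R₁) (v b / R₂)

theorem sv_mul (R₁ R₂ : ℝ) (k a b : K) (v : InfinitePlace K) :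
    sv R₁ R₂ (k * a) (k * b) v = v k * sv R₁ R₂ a b v := by
  unfold sv
  rw [map_mul, map_mul, mul_max_of_nonneg _ _ (apply_nonneg v k), mul_div_assoc, mul_div_assoc]

theorem sv_nonneg {R₁ R₂ : ℝ} (h1 : 0 < R₁) (a b : K) (v : InfinitePlace K) :
    0 ≤ sv R₁ R₂ a b v :=
  le_trans (div_nonneg (apply_nonneg v a) h1.le) (le_max_left _ _)

theorem sv_pos {R₁ R₂ : ℝ} (h1 : 0 < R₁) (h2 : 0 < R₂) {a b : K} (h : a ≠ 0 ∨ b ≠ 0)
    (v : InfinitePlace K) : 0 < sv R₁ R₂ a b v := by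
  rcases h with h | h
  · exact lt_of_lt_of_le (div_pos (v.pos_iff.2 h) h1) (le_max_left _ _)
  · exact lt_of_lt_of_le (div_pos (v.pos_iff.2 h) h2) (le_max_right _ _)

theorem v_sub_le (v : InfinitePlace K) (a b : K) : v (a - b) ≤ v a + v b := by
  have h := v.1.add_le a (-b)
  have h2 : v.1 (-b) = v.1 b := v.1.map_neg b
  rw [h2, ← sub_eq_add_neg] at h
  exact h

theorem sv_sub_le {R₁ R₂ : ℝ} (h1 : 0 < R₁) (h2 : 0 < R₂) {a b a' b' : K} {v : InfinitePlace K}
    (ha : v a ≤ R₁) (hb : v b ≤ R₂) (ha' : v a' ≤ R₁) (hb' : v b' ≤ R₂) :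
    sv R₁ R₂ (a - a') (b - b') v ≤ 2 := by
  unfold sv
  refine max_le ?_ ?_
  · rw [div_le_iff₀ h1]
    linarith [v_sub_le v a a']
  · rw [div_le_iff₀ h2]
    linarith [v_sub_le v b b']

variable (K) in
theorem box_fin (R : ℝ) : {x : 𝓞 K | ∀ v : InfinitePlace K, v (x : K) ≤ R}.Finite := by
  have h := Embeddings.finite_of_norm_le K ℂ R
  have h2 := h.preimage (f := fun x : 𝓞 K => (x : K)) (RingOfIntegers.coe_injective.injOn)
  refine h2.subset ?_
  intro x hx
  refine ⟨x.2, ?_⟩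
  intro φ
  have := hx (InfinitePlace.mk φ)
  exact this

theorem norm_ge_of_mem (d : Ideal (𝓞 K)) {x : 𝓞 K} (hx : x ∈ d) (h0 : x ≠ 0) :
    nm d ≤ |((Algebra.norm ℚ (x : K) : ℚ) : ℝ)| := by
  have h1 : Ideal.absNorm d ∣ Ideal.absNorm (Ideal.span {x}) :=
    Ideal.absNorm_dvd_absNorm_of_le ((Ideal.span_singleton_le_iff_mem d).2 hx)
  rw [Ideal.absNorm_span_singleton] at h1
  have h2 : (Algebra.norm ℤ x).natAbs ≠ 0 := by
    rw [Int.natAbs_ne_zero]
    exact Algebra.norm_ne_zero_iff.2 h0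
  have h3 : Ideal.absNorm d ≤ (Algebra.norm ℤ x).natAbs :=
    Nat.le_of_dvd (Nat.pos_of_ne_zero h2) h1
  have h4 : ((Algebra.norm ℚ (x : K) : ℚ) : ℝ) = ((Algebra.norm ℤ x : ℤ) : ℝ) := by
    rw [← Algebra.coe_norm_int]
    norm_cast
  rw [h4, ← Int.cast_abs, Int.abs_eq_natAbs]
  unfold nm
  exact_mod_cast h3

theorem prod_pow_le (f : InfinitePlace K → ℝ) (T : ℝ) (h0 : ∀ v, 0 ≤ f v) (h1 : ∀ v, f v ≤ T) :
    ∏ w, f w ^ w.mult ≤ T ^ Module.finrank ℚ K := by
  rw [← sum_mult_eq, ← Finset.prod_pow_eq_pow_sum]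
  exact Finset.prod_le_prod (fun v _ => pow_nonneg (h0 v) _)
    (fun v _ => pow_le_pow_left₀ (h0 v) (h1 v) _)

theorem prod_pow_le' (f : InfinitePlace K → ℝ) (s : ℝ) (h0 : ∀ v, 0 ≤ f v) (h1 : ∀ v, f v ≤ s)
    (v : InfinitePlace K) : s * ∏ w, f w ^ w.mult ≤ f v * s ^ Module.finrank ℚ K := by
  classical
  have hs : 0 ≤ s := (h0 v).trans (h1 v)
  rw [← sum_mult_eq, ← Finset.prod_pow_eq_pow_sum]
  rw [← Finset.mul_prod_erase Finset.univ (fun w => f w ^ w.mult) (Finset.mem_univ v),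
    ← Finset.mul_prod_erase Finset.univ (fun w => s ^ w.mult) (Finset.mem_univ v)]
  have h2 : ∏ w ∈ Finset.univ.erase v, f w ^ w.mult ≤ ∏ w ∈ Finset.univ.erase v, s ^ w.mult :=
    Finset.prod_le_prod (fun v _ => pow_nonneg (h0 v) _)
      (fun v _ => pow_le_pow_left₀ (h0 v) (h1 v) _)
  have h3 : 0 ≤ ∏ w ∈ Finset.univ.erase v, f w ^ w.mult :=
    Finset.prod_nonneg (fun v _ => pow_nonneg (h0 v) _)
  have h4 : s * f v ^ v.mult ≤ f v * s ^ v.mult := by
    obtain ⟨k, hk⟩ : ∃ k, v.mult = k + 1 := ⟨v.mult - 1, (Nat.succ_pred_eq_of_pos mult_pos).symm⟩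
    rw [hk, pow_succ, pow_succ]
    have h5 : f v ^ k ≤ s ^ k := pow_le_pow_left₀ (h0 v) (h1 v) _
    have h6 : 0 ≤ s * f v := mul_nonneg hs (h0 v)
    nlinarith [mul_le_mul_of_nonneg_left h5 h6]
  calc s * (f v ^ v.mult * ∏ w ∈ Finset.univ.erase v, f w ^ w.mult)
      = (s * f v ^ v.mult) * ∏ w ∈ Finset.univ.erase v, f w ^ w.mult := by ring
    _ ≤ (f v * s ^ v.mult) * ∏ w ∈ Finset.univ.erase v, s ^ w.mult :=
        mul_le_mul h4 h2 h3 (mul_nonneg (h0 v) (pow_nonneg hs _))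
    _ = _ := by ring

/-- the facts about the minimal vector -/
structure MinV (C : ℝ) (d : Ideal (𝓞 K)) (η : 𝓞 K) (R₁ R₂ : ℝ) (a b : 𝓞 K) (s : ℝ) : Prop where
  ne : (a : K) ≠ 0 ∨ (b : K) ≠ 0
  mem : a - η * b ∈ d
  pos : 0 < s
  le1 : s ≤ 1
  le : ∀ v : InfinitePlace K, sv R₁ R₂ (a : K) (b : K) v ≤ s
  low : ∀ v : InfinitePlace K, s ≤ C ^ Module.finrank ℚ K * sv R₁ R₂ (a : K) (b : K) v
  mult : ∀ (k : K) (a' b' : 𝓞 K), k ≠ 0 → (a' : K) = k * a → (b' : K) = k * b →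
    a' - η * b' ∈ d → 1 ≤ C ^ Module.finrank ℚ K * |((Algebra.norm ℚ k : ℚ) : ℝ)|

theorem exists_minV (C : ℝ) (hC : 1 ≤ C)
    (hBG : ∀ s : InfinitePlace K → ℝ, (∀ v, 0 < s v) → ∃ u : (𝓞 K)ˣ, ∀ v : InfinitePlace K,
      v (u : K) * s v ≤ C * (∏ w, s w ^ w.mult) ^ (1 / (Module.finrank ℚ K : ℝ)))
    (d : Ideal (𝓞 K)) (η : 𝓞 K) (R₁ R₂ : ℝ) (h1 : 0 < R₁) (h2 : 0 < R₂)
    (hne : ∃ a b : 𝓞 K, (a ≠ 0 ∨ b ≠ 0) ∧ a - η * b ∈ d ∧
      ∀ v : InfinitePlace K, v (a : K) ≤ R₁ ∧ v (b : K) ≤ R₂) :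
    ∃ a b : 𝓞 K, ∃ s : ℝ, MinV C d η R₁ R₂ a b s := by
  classical
  set S : Set (𝓞 K × 𝓞 K) := {Q | (Q.1 ≠ 0 ∨ Q.2 ≠ 0) ∧ Q.1 - η * Q.2 ∈ d ∧
    ∀ v : InfinitePlace K, v (Q.1 : K) ≤ R₁ ∧ v (Q.2 : K) ≤ R₂} with hS
  have hfin : S.Finite := by
    refine ((box_fin K R₁).prod (box_fin K R₂)).subset ?_
    rintro ⟨x, y⟩ hxy
    exact ⟨fun v => (hxy.2.2 v).1, fun v => (hxy.2.2 v).2⟩
  have hnem : S.Nonempty := by
    obtain ⟨a, b, h⟩ := hne
    exact ⟨(a, b), h⟩
  set ss : 𝓞 K × 𝓞 K → ℝ := fun Q => Finset.univ.sup' Finset.univ_nonempty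
    (fun v => sv R₁ R₂ (Q.1 : K) (Q.2 : K) v) with hss
  obtain ⟨P, hPS, hmin⟩ := Set.exists_min_image S ss hfin hnem
  have hle : ∀ v : InfinitePlace K, sv R₁ R₂ (P.1 : K) (P.2 : K) v ≤ ss P := fun v =>
    Finset.le_sup' (fun v => sv R₁ R₂ (P.1 : K) (P.2 : K) v) (Finset.mem_univ v)
  have hne' : (P.1 : K) ≠ 0 ∨ (P.2 : K) ≠ 0 := by
    rcases hPS.1 with h | h
    · exact Or.inl (by simpa using h)
    · exact Or.inr (by simpa using h)
  have hposv : ∀ v : InfinitePlace K, 0 < sv R₁ R₂ (P.1 : K) (P.2 : K) v := sv_pos h1 h2 hne'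
  have hpos : 0 < ss P := lt_of_lt_of_le (hposv (Classical.arbitrary _)) (hle _)
  have hle1 : ss P ≤ 1 := by
    refine Finset.sup'_le _ _ ?_
    intro v _
    unfold sv
    exact max_le ((div_le_one h1).2 (hPS.2.2 v).1) ((div_le_one h2).2 (hPS.2.2 v).2)
  have hn : (Module.finrank ℚ K) ≠ 0 := Module.finrank_pos.ne'
  -- the key inequality
  have key : ∀ (k : K) (a' b' : 𝓞 K), k ≠ 0 → (a' : K) = k * P.1 → (b' : K) = k * P.2 →
      a' - η * b' ∈ d → ss P ^ Module.finrank ℚ K ≤ C ^ Module.finrank ℚ K *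
        (|((Algebra.norm ℚ k : ℚ) : ℝ)| *
          ∏ w, sv R₁ R₂ (P.1 : K) (P.2 : K) w ^ w.mult) := by
    intro k a' b' hk ha hb hm
    obtain ⟨u, hu⟩ := hBG (fun v => v k * sv R₁ R₂ (P.1 : K) (P.2 : K) v)
      (fun v => mul_pos (v.pos_iff.2 hk) (hposv v))
    have hprod : ∏ w, (w k * sv R₁ R₂ (P.1 : K) (P.2 : K) w) ^ w.mult =
        |((Algebra.norm ℚ k : ℚ) : ℝ)| * ∏ w, sv R₁ R₂ (P.1 : K) (P.2 : K) w ^ w.mult := by
      rw [← Rat.cast_abs, ← prod_eq_abs_norm, ← Finset.prod_mul_distrib]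
      exact Finset.prod_congr rfl fun w _ => mul_pow _ _ _
    set qq := ∏ w, (w k * sv R₁ R₂ (P.1 : K) (P.2 : K) w) ^ w.mult with hq
    have hq0 : 0 ≤ qq := Finset.prod_nonneg fun w _ =>
      pow_nonneg (mul_nonneg (apply_nonneg w k) (sv_nonneg h1 _ _ w)) _
    have hge : ss P ≤ C * qq ^ (1 / (Module.finrank ℚ K : ℝ)) := by
      by_contra hlt
      push Not at hlt
      have hQv : ∀ v : InfinitePlace K, sv R₁ R₂ ((u * a' : 𝓞 K) : K) ((u * b' : 𝓞 K) : K) v <
          ss P := by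
        intro v
        have e1 : ((u * a' : 𝓞 K) : K) = (u : K) * (k * P.1) := by
          rw [← ha]
          push_cast
          rfl
        have e2 : ((u * b' : 𝓞 K) : K) = (u : K) * (k * P.2) := by
          rw [← hb]
          push_cast
          rfl
        rw [e1, e2, sv_mul, sv_mul]
        exact lt_of_le_of_lt (hu v) hlt
      have hQS : ((u * a' : 𝓞 K), (u * b' : 𝓞 K)) ∈ S := by
        refine ⟨?_, ?_, ?_⟩
        · rcases hne' with h | h
          · left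
            have : (a' : K) ≠ 0 := by rw [ha]; exact mul_ne_zero hk h
            have ha0 : a' ≠ 0 := by
              rintro rfl
              exact this (by simp)
            exact mul_ne_zero u.ne_zero ha0
          · right
            have : (b' : K) ≠ 0 := by rw [hb]; exact mul_ne_zero hk h
            have hb0 : b' ≠ 0 := by
              rintro rfl
              exact this (by simp)
            exact mul_ne_zero u.ne_zero hb0
        · have : (u * a' : 𝓞 K) - η * (u * b') = u * (a' - η * b') := by ring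
          show (u * a' : 𝓞 K) - η * (u * b') ∈ d
          rw [this]
          exact d.mul_mem_left _ hm
        · intro v
          have h3 := (hQv v).le.trans hle1
          unfold sv at h3
          rw [max_le_iff, div_le_one h1, div_le_one h2] at h3
          exact h3
      have h4 := hmin _ hQS
      have h5 : ss ((u * a' : 𝓞 K), (u * b' : 𝓞 K)) < ss P := by
        rw [hss]
        simp only
        rw [Finset.sup'_lt_iff]
        intro v _
        exact hQv v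
      exact absurd h4 (not_le.2 h5)
    have hp := pow_le_pow_left₀ hpos.le hge (Module.finrank ℚ K)
    rw [mul_pow, one_div, Real.rpow_inv_natCast_pow hq0 hn] at hp
    rw [hprod] at hp
    exact hp
  have hC0 : 0 < C ^ Module.finrank ℚ K := by positivity
  refine ⟨P.1, P.2, ss P, hne', hPS.2.1, hpos, hle1, hle, ?_, ?_⟩
  · intro v
    have h3 := key 1 P.1 P.2 one_ne_zero (by simp) (by simp) hPS.2.1
    simp only [map_one, Rat.cast_one, abs_one, one_mul] at h3
    have h4 := prod_pow_le' (fun w => sv R₁ R₂ (P.1 : K) (P.2 : K) w) (ss P)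
      (fun w => sv_nonneg h1 _ _ w) hle v
    have h5 : ss P * ss P ^ Module.finrank ℚ K ≤
        (C ^ Module.finrank ℚ K * sv R₁ R₂ (P.1 : K) (P.2 : K) v) * ss P ^ Module.finrank ℚ K := by
      calc ss P * ss P ^ Module.finrank ℚ K ≤ ss P * (C ^ Module.finrank ℚ K *
            ∏ w, sv R₁ R₂ (P.1 : K) (P.2 : K) w ^ w.mult) :=
          mul_le_mul_of_nonneg_left h3 hpos.le
        _ = C ^ Module.finrank ℚ K * (ss P * ∏ w, sv R₁ R₂ (P.1 : K) (P.2 : K) w ^ w.mult) := by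
          ring
        _ ≤ C ^ Module.finrank ℚ K * (sv R₁ R₂ (P.1 : K) (P.2 : K) v *
            ss P ^ Module.finrank ℚ K) := mul_le_mul_of_nonneg_left h4 hC0.le
        _ = _ := by ring
    exact le_of_mul_le_mul_right h5 (pow_pos hpos _)
  · intro k a' b' hk ha hb hm
    have h3 := key k a' b' hk ha hb hm
    have h4 := prod_pow_le (fun w => sv R₁ R₂ (P.1 : K) (P.2 : K) w) (ss P)
      (fun w => sv_nonneg h1 _ _ w) hle
    have h5 : 1 * ss P ^ Module.finrank ℚ K ≤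
        (C ^ Module.finrank ℚ K * |((Algebra.norm ℚ k : ℚ) : ℝ)|) *
          ss P ^ Module.finrank ℚ K := by
      rw [one_mul]
      refine h3.trans ?_
      rw [← mul_assoc]
      exact mul_le_mul_of_nonneg_left h4 (mul_nonneg hC0.le (abs_nonneg _))
    exact le_of_mul_le_mul_right h5 (pow_pos hpos _)

/-- the count, given the minimal vector -/
theorem count (C C₂ : ℝ) (hC : 1 ≤ C) (hC₂ : 1 ≤ C₂)
    (hPG : ∀ (X : Finset K) (T c : ℝ), 0 ≤ T →
      0 < c → (∀ x ∈ X, ∀ v : InfinitePlace K, v x ≤ T) →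
      (∀ x ∈ X, ∀ y ∈ X, x ≠ y → c ≤ |((Algebra.norm ℚ (x - y) : ℚ) : ℝ)|) →
      (X.card : ℝ) ≤ C₂ * (1 + T ^ Module.finrank ℚ K / c))
    (d : Ideal (𝓞 K)) (hd : d ≠ ⊥) (η : 𝓞 K) (R₁ R₂ : ℝ) (h1 : 0 < R₁) (h2 : 0 < R₂) (a b : 𝓞 K)
    (s : ℝ) (hP : MinV C d η R₁ R₂ a b s) (X : Finset (𝓞 K × 𝓞 K))
    (hX : ∀ p ∈ X, p.1 - η * p.2 ∈ d ∧
      ∀ v : InfinitePlace K, v (p.1 : K) ≤ R₁ ∧ v (p.2 : K) ≤ R₂)
    (hnp : ∃ p ∈ X, ∃ p' ∈ X, p.1 * p'.2 ≠ p'.1 * p.2) :
    (X.card : ℝ) ≤ (2 * C₂ * (2 * (C₂ * (2 * C ^ Module.finrank ℚ K) ^ Module.finrank ℚ K *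
      C ^ Module.finrank ℚ K)) * 2 ^ Module.finrank ℚ K) *
        (R₁ * R₂) ^ Module.finrank ℚ K / nm d := by
  classical
  set n := Module.finrank ℚ K with hn
  have hnd : 0 < nm d := by
    unfold nm
    have : Ideal.absNorm d ≠ 0 := fun h => hd (Ideal.absNorm_eq_zero_iff.1 h)
    exact_mod_cast Nat.pos_of_ne_zero this
  have hs := hP.pos
  have hC0 : (0 : ℝ) < C := lt_of_lt_of_le one_pos hC
  have hCn : (1 : ℝ) ≤ C ^ n := one_le_pow₀ hC
  -- bounds for the minimal vector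
  have hva : ∀ v : InfinitePlace K, v (a : K) ≤ s * R₁ := by
    intro v
    have := (le_max_left (v (a : K) / R₁) (v (b : K) / R₂)).trans (hP.le v)
    rwa [div_le_iff₀ h1] at this
  have hvb : ∀ v : InfinitePlace K, v (b : K) ≤ s * R₂ := by
    intro v
    have := (le_max_right (v (a : K) / R₁) (v (b : K) / R₂)).trans (hP.le v)
    rwa [div_le_iff₀ h2] at this
  -- the determinant
  set D : 𝓞 K × 𝓞 K → 𝓞 K := fun p => p.1 * b - p.2 * a with hD
  have hDmem : ∀ p ∈ X, D p ∈ d := by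
    intro p hp
    have e : D p = b * (p.1 - η * p.2) - p.2 * (a - η * b) := by
      rw [hD]
      ring
    rw [e]
    exact d.sub_mem (d.mul_mem_left _ (hX p hp).1) (d.mul_mem_left _ hP.mem)
  have hDv : ∀ p ∈ X, ∀ v : InfinitePlace K, v (D p : K) ≤ 2 * s * (R₁ * R₂) := by
    intro p hp v
    have e : (D p : K) = (p.1 : K) * b - (p.2 : K) * a := by
      rw [hD]
      push_cast
      ring
    rw [e]
    refine (v_sub_le v _ _).trans ?_
    rw [map_mul, map_mul]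
    have h3 : v (p.1 : K) * v (b : K) ≤ R₁ * (s * R₂) :=
      mul_le_mul ((hX p hp).2 v).1 (hvb v) (apply_nonneg v _) h1.le
    have h4 : v (p.2 : K) * v (a : K) ≤ R₂ * (s * R₁) :=
      mul_le_mul ((hX p hp).2 v).2 (hva v) (apply_nonneg v _) h2.le
    linarith
  have hT0 : 0 ≤ 2 * s * (R₁ * R₂) := by positivity
  -- some determinant is not zero
  have hone : 1 ≤ (2 * s * (R₁ * R₂)) ^ n / nm d := by
    obtain ⟨p, hp, p', hp', hpp⟩ := hnp
    have hex : ∃ p ∈ X, D p ≠ 0 := by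
      by_contra hcon
      push Not at hcon
      have e1 := hcon p hp
      have e2 := hcon p' hp'
      simp only [hD, sub_eq_zero] at e1 e2
      rcases hP.ne with h | h
      · have ha0 : a ≠ 0 := by
          rintro rfl
          exact h (by simp)
        apply hpp
        have e3 : a * (p.1 * p'.2) = a * (p'.1 * p.2) := by
          calc a * (p.1 * p'.2) = p.1 * (p'.2 * a) := by ring
            _ = p.1 * (p'.1 * b) := by rw [e2]
            _ = p'.1 * (p.1 * b) := by ring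
            _ = p'.1 * (p.2 * a) := by rw [e1]
            _ = a * (p'.1 * p.2) := by ring
        exact mul_left_cancel₀ ha0 e3
      · have hb0 : b ≠ 0 := by
          rintro rfl
          exact h (by simp)
        apply hpp
        have e3 : b * (p.1 * p'.2) = b * (p'.1 * p.2) := by
          calc b * (p.1 * p'.2) = (p.1 * b) * p'.2 := by ring
            _ = (p.2 * a) * p'.2 := by rw [e1]
            _ = (p'.2 * a) * p.2 := by ring
            _ = (p'.1 * b) * p.2 := by rw [e2]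
            _ = b * (p'.1 * p.2) := by ring
        exact mul_left_cancel₀ hb0 e3
    obtain ⟨q, hq, hq0⟩ := hex
    rw [le_div_iff₀ hnd, one_mul]
    refine (norm_ge_of_mem d (hDmem q hq) hq0).trans ?_
    rw [← Rat.cast_abs, ← prod_eq_abs_norm]
    exact prod_pow_le _ _ (fun v => apply_nonneg v _) (hDv q hq)
  -- the number of the determinants
  set Y : Finset (𝓞 K) := X.image D with hY
  have hYc : (Y.card : ℝ) ≤ 2 * C₂ * ((2 * s * (R₁ * R₂)) ^ n / nm d) := by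
    have h3 := hPG (Y.image fun x : 𝓞 K => (x : K)) (2 * s * (R₁ * R₂)) (nm d) hT0 hnd ?_ ?_
    · rw [Finset.card_image_of_injective _ RingOfIntegers.coe_injective] at h3
      refine h3.trans ?_
      have : C₂ * (1 + (2 * s * (R₁ * R₂)) ^ n / nm d) ≤
          C₂ * (2 * ((2 * s * (R₁ * R₂)) ^ n / nm d)) :=
        mul_le_mul_of_nonneg_left (by linarith) (by linarith)
      refine this.trans (le_of_eq ?_)
      ring
    · intro x hx v
      obtain ⟨y, hy, rfl⟩ := Finset.mem_image.1 hx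
      obtain ⟨p, hp, rfl⟩ := Finset.mem_image.1 hy
      exact hDv p hp v
    · intro x hx y hy hxy
      obtain ⟨x', hx', rfl⟩ := Finset.mem_image.1 hx
      obtain ⟨p, hp, rfl⟩ := Finset.mem_image.1 hx'
      obtain ⟨y', hy', rfl⟩ := Finset.mem_image.1 hy
      obtain ⟨p', hp', rfl⟩ := Finset.mem_image.1 hy'
      have h4 : D p - D p' ≠ 0 := by
        intro h5
        rw [sub_eq_zero] at h5
        exact hxy (by rw [h5])
      have h5 := norm_ge_of_mem d (d.sub_mem (hDmem p hp) (hDmem p' hp')) h4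
      have h6 : ((D p - D p' : 𝓞 K) : K) = (D p : K) - (D p' : K) := by push_cast; rfl
      rw [h6] at h5
      exact h5
  -- the fibres
  set F : ℝ := 2 * (C₂ * ((2 * C ^ n / s) ^ n * C ^ n)) with hF
  have hfib : ∀ y ∈ Y, ((X.filter fun p => D p = y).card : ℝ) ≤ F := by
    intro y hy
    obtain ⟨p₀, hp₀, hy₀⟩ := Finset.mem_image.1 hy
    -- the quotient
    have hq : ∀ p : 𝓞 K × 𝓞 K, D p = y → ∃ k : K, ((p.1 - p₀.1 : 𝓞 K) : K) = k * a ∧
        ((p.2 - p₀.2 : 𝓞 K) : K) = k * b := by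
      intro p hp
      have e1 : p.1 * b - p.2 * a = p₀.1 * b - p₀.2 * a := by
        rw [← hy₀] at hp
        exact hp
      have e2 : ((p.1 : K) - (p₀.1 : K)) * (b : K) = ((p.2 : K) - (p₀.2 : K)) * (a : K) := by
        have e3 := congrArg (fun x : 𝓞 K => (x : K)) e1
        simp only [map_sub, map_mul] at e3
        linear_combination e3
      rcases hP.ne with h | h
      · refine ⟨((p.1 : K) - (p₀.1 : K)) / a, ?_, ?_⟩
        · rw [div_mul_cancel₀ _ h]
          push_cast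
          rfl
        · rw [div_mul_eq_mul_div, e2, mul_div_assoc, div_self h, mul_one]
          push_cast
          rfl
      · refine ⟨((p.2 : K) - (p₀.2 : K)) / b, ?_, ?_⟩
        · rw [div_mul_eq_mul_div, ← e2, mul_div_assoc, div_self h, mul_one]
          push_cast
          rfl
        · rw [div_mul_cancel₀ _ h]
          push_cast
          rfl
    choose! k hk1 hk2 using hq
    set Z := X.filter fun p => D p = y with hZ
    have hZX : ∀ p ∈ Z, p ∈ X ∧ D p = y := fun p hp => Finset.mem_filter.1 hp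
    have hinj : Set.InjOn k (Z : Set (𝓞 K × 𝓞 K)) := by
      intro p hp p' hp' hkk
      have h3 := (hZX p hp).2
      have h4 := (hZX p' hp').2
      have e1 : ((p.1 - p₀.1 : 𝓞 K) : K) = ((p'.1 - p₀.1 : 𝓞 K) : K) := by
        rw [hk1 p h3, hk1 p' h4, hkk]
      have e2 : ((p.2 - p₀.2 : 𝓞 K) : K) = ((p'.2 - p₀.2 : 𝓞 K) : K) := by
        rw [hk2 p h3, hk2 p' h4, hkk]
      have e3 := RingOfIntegers.coe_injective e1
      have e4 := RingOfIntegers.coe_injective e2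
      exact Prod.ext (sub_left_injective e3) (sub_left_injective e4)
    have hcard : (Z.card : ℝ) = ((Z.image k).card : ℝ) := by
      rw [Finset.card_image_of_injOn hinj]
    rw [hcard]
    have h3 := hPG (Z.image k) (2 * C ^ n / s) (C ^ n)⁻¹ (by positivity) (by positivity) ?_ ?_
    · refine h3.trans ?_
      rw [div_inv_eq_mul, hF]
      have h4 : (1 : ℝ) ≤ 2 * C ^ n / s := by
        rw [le_div_iff₀ hs]
        linarith [hP.le1]
      have h5 : (1 : ℝ) ≤ (2 * C ^ n / s) ^ n * C ^ n :=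
        one_le_mul_of_one_le_of_one_le (one_le_pow₀ h4) hCn
      have : C₂ * (1 + (2 * C ^ n / s) ^ n * C ^ n) ≤
          C₂ * (2 * ((2 * C ^ n / s) ^ n * C ^ n)) :=
        mul_le_mul_of_nonneg_left (by linarith) (by linarith)
      refine this.trans (le_of_eq ?_)
      ring
    · intro x hx v
      obtain ⟨p, hp, rfl⟩ := Finset.mem_image.1 hx
      obtain ⟨hpX, hpy⟩ := hZX p hp
      have h4 := sv_mul R₁ R₂ (k p) (a : K) (b : K) v
      rw [← hk1 p hpy, ← hk2 p hpy] at h4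
      have h5 : sv R₁ R₂ ((p.1 - p₀.1 : 𝓞 K) : K) ((p.2 - p₀.2 : 𝓞 K) : K) v ≤ 2 := by
        have := sv_sub_le h1 h2 ((hX p hpX).2 v).1 ((hX p hpX).2 v).2
          ((hX p₀ hp₀).2 v).1 ((hX p₀ hp₀).2 v).2
        simpa using this
      rw [h4] at h5
      rw [le_div_iff₀ hs]
      calc v (k p) * s ≤ v (k p) * (C ^ n * sv R₁ R₂ (a : K) (b : K) v) :=
            mul_le_mul_of_nonneg_left (hP.low v) (apply_nonneg v _)
        _ = C ^ n * (v (k p) * sv R₁ R₂ (a : K) (b : K) v) := by ring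
        _ ≤ C ^ n * 2 := mul_le_mul_of_nonneg_left h5 (by positivity)
        _ = 2 * C ^ n := by ring
    · intro x hx y' hy' hxy
      obtain ⟨p, hp, rfl⟩ := Finset.mem_image.1 hx
      obtain ⟨p', hp', rfl⟩ := Finset.mem_image.1 hy'
      obtain ⟨hpX, hpy⟩ := hZX p hp
      obtain ⟨hpX', hpy'⟩ := hZX p' hp'
      have h4 := hP.mult (k p - k p') (p.1 - p'.1) (p.2 - p'.2) (sub_ne_zero.2 hxy) ?_ ?_ ?_
      · rw [inv_le_iff_one_le_mul₀' (by positivity)]
        exact h4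
      · have e1 := hk1 p hpy
        have e2 := hk1 p' hpy'
        simp only [map_sub] at e1 e2 ⊢
        linear_combination e1 - e2
      · have e1 := hk2 p hpy
        have e2 := hk2 p' hpy'
        simp only [map_sub] at e1 e2 ⊢
        linear_combination e1 - e2
      · have e : p.1 - p'.1 - η * (p.2 - p'.2) = (p.1 - η * p.2) - (p'.1 - η * p'.2) := by ring
        rw [e]
        exact d.sub_mem (hX p hpX).1 (hX p' hpX').1
  have hF0 : 0 ≤ F := by positivity
  have hsum : (X.card : ℝ) ≤ Y.card * F := by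
    rw [Finset.card_eq_sum_card_image D X]
    push_cast
    calc ∑ y ∈ X.image D, ((X.filter fun p => D p = y).card : ℝ) ≤ ∑ y ∈ X.image D, F :=
          Finset.sum_le_sum hfib
      _ = Y.card * F := by rw [Finset.sum_const, nsmul_eq_mul]
  refine hsum.trans ((mul_le_mul_of_nonneg_right hYc hF0).trans (le_of_eq ?_))
  rw [hF]
  have hs' : s ≠ 0 := hs.ne'
  rw [div_pow, mul_pow (2 * s), mul_pow 2 s]
  field_simp

end LM

theorem pf_LM (hBG : T_BG) (hPG : T_PG) : T_LM := by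
  intro K _ _
  obtain ⟨C, hC, hC'⟩ := hBG K
  obtain ⟨C₂, hC₂, hC₂'⟩ := hPG K
  refine ⟨2 * C₂ * (2 * (C₂ * (2 * C ^ Module.finrank ℚ K) ^ Module.finrank ℚ K *
      C ^ Module.finrank ℚ K)) * 2 ^ Module.finrank ℚ K, fun d η R₁ R₂ X hd h1 h2 hX hnp => ?_⟩
  obtain ⟨a, b, s, hP⟩ := exists_minV C hC hC' d η R₁ R₂ h1 h2 (by
    obtain ⟨p, hp, p', hp', hpp⟩ := hnp
    by_cases h : p.1 ≠ 0 ∨ p.2 ≠ 0
    · exact ⟨p.1, p.2, h, (hX p hp).1, (hX p hp).2⟩
    · push Not at h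
      exfalso
      apply hpp
      rw [h.1, h.2]
      ring)
  exact count C C₂ hC hC₂ hC₂' d hd η R₁ R₂ h1 h2 a b s hP X hX hnp

end Pool.Agent.H69.CV
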