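import Pool.Agent.H37.CV.Targets

/-!
# (LR): counting the relations
-/

set_option autoImplicit false

open NumberField NumberField.InfinitePlace

namespace Pool.Agent.H69.CV

open Pool.Agent.H37.CV Pool.Agent.H28.RC Pool.Agent.H25.HK

section LR

variable {K : Type} [Field K] [NumberField K]

theorem nm_span (x : 𝓞 K) : nm (Ideal.span {x}) = ∏ w : InfinitePlace K, w (x : K) ^ w.mult := by
  rw [prod_eq_abs_norm, ← Algebra.coe_norm_int]
  unfold nm
  rw [Ideal.absNorm_span_singleton]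
  rw [Rat.cast_abs, Rat.cast_intCast, ← Int.cast_abs, Nat.cast_natAbs]

theorem nm_mul (I J : Ideal (𝓞 K)) : nm (I * J) = nm I * nm J := by
  unfold nm
  rw [map_mul]
  push_cast
  rfl

/-- a balanced generator -/
theorem balance (C : ℝ) (hC : 1 ≤ C)
    (hBG : ∀ s : InfinitePlace K → ℝ, (∀ v, 0 < s v) → ∃ u : (𝓞 K)ˣ, ∀ v : InfinitePlace K,
      v (u : K) * s v ≤ C * (∏ w, s w ^ w.mult) ^ (1 / (Module.finrank ℚ K : ℝ)))
    (x : 𝓞 K) (hx : x ≠ 0) (T : ℝ) (hT : nm (Ideal.span {x}) ≤ T) :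
    ∃ u : (𝓞 K)ˣ, ∀ v : InfinitePlace K, v ((u * x : 𝓞 K) : K) ≤
      C * T ^ (1 / (Module.finrank ℚ K : ℝ)) := by
  have hx' : (x : K) ≠ 0 := by simpa using hx
  obtain ⟨u, hu⟩ := hBG (fun v => v (x : K)) (fun v => v.pos_iff.2 hx')
  refine ⟨u, fun v => ?_⟩
  have e : ((u * x : 𝓞 K) : K) = (u : K) * (x : K) := by
    push_cast
    rfl
  rw [e, map_mul]
  refine (hu v).trans ?_
  rw [← nm_span]
  refine mul_le_mul_of_nonneg_left ?_ (by linarith)
  refine Real.rpow_le_rpow ?_ hT (by positivity)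
  unfold nm
  positivity

/-- the data of a pair -/
theorem pair_data (C : ℝ) (hC : 1 ≤ C)
    (hBG : ∀ s : InfinitePlace K → ℝ, (∀ v, 0 < s v) → ∃ u : (𝓞 K)ˣ, ∀ v : InfinitePlace K,
      v (u : K) * s v ≤ C * (∏ w, s w ^ w.mult) ^ (1 / (Module.finrank ℚ K : ℝ)))
    (G : Finset (Ideal (𝓞 K))) (hG0 : ∀ g ∈ G, g ≠ ⊥)
    (hG : ∀ I : Ideal (𝓞 K), I ≠ ⊥ → ∃ g ∈ G, ∃ a : 𝓞 K, a ≠ 0 ∧ g * I = Ideal.span {a})
    (M : ℝ) (hM : ∀ g ∈ G, nm g ≤ M) (m d : Ideal (𝓞 K)) (hmd : m ≤ d) (A B : ℝ)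
    (p : Ideal (𝓞 K) × Ideal (𝓞 K)) (hp : p ∈ CP m d) (hA : nm p.1 ≤ A) (hB : nm p.2 ≤ B) :
    ∃ g ∈ G, ∃ (α β : 𝓞 K) (η : (𝓞 K)ˣ), g * p.1 = Ideal.span {α} ∧ g * p.2 = Ideal.span {β} ∧
      α - η * β ∈ d ∧ ∀ v : InfinitePlace K,
        v (α : K) ≤ C * (M * A) ^ (1 / (Module.finrank ℚ K : ℝ)) ∧
        v (β : K) ≤ C * (M * B) ^ (1 / (Module.finrank ℚ K : ℝ)) := by
  obtain ⟨hI, hJ, -, -, -, a, b, ha, hb, ham, hbm, hab, hIJ⟩ := hp
  obtain ⟨g, hg, c, hc, hgc⟩ := hG p.2 hJ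
  have h1 : Ideal.span {a} * (g * p.1) = Ideal.span {b * c} := by
    calc Ideal.span {a} * (g * p.1) = g * (Ideal.span {a} * p.1) := by ring
      _ = g * (Ideal.span {b} * p.2) := by rw [hIJ]
      _ = Ideal.span {b} * (g * p.2) := by ring
      _ = Ideal.span {b * c} := by rw [hgc, Ideal.span_singleton_mul_span_singleton]
  have h2 : a ∣ b * c := by
    have h0 : (Ideal.span {b * c} : Ideal (𝓞 K)) ≤ Ideal.span {a} := by
      rw [← h1]
      exact Ideal.mul_le_left (I := Ideal.span {a}) (J := g * p.1)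
    exact Ideal.span_singleton_le_span_singleton.1 h0
  obtain ⟨e, he⟩ := h2
  have h3 : g * p.1 = Ideal.span {e} := by
    have h4 : Ideal.span {a} * (g * p.1) = Ideal.span {a} * Ideal.span {e} := by
      rw [h1, he, Ideal.span_singleton_mul_span_singleton]
    have h5 : Ideal.span {a} ≠ (⊥ : Ideal (𝓞 K)) := by
      rw [Ne, Ideal.span_singleton_eq_bot]
      exact ha
    exact mul_left_cancel₀ (a := Ideal.span {a}) h5 h4
  have he0 : e ≠ 0 := by
    rintro rfl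
    rw [mul_zero] at he
    exact mul_ne_zero hb hc he
  have hM0 : 0 ≤ nm g := by unfold nm; positivity
  have hn1 : nm (Ideal.span {e}) ≤ M * A := by
    rw [← h3, nm_mul]
    exact mul_le_mul (hM g hg) hA (by unfold nm; positivity) (hM0.trans (hM g hg))
  have hn2 : nm (Ideal.span {c}) ≤ M * B := by
    rw [← hgc, nm_mul]
    exact mul_le_mul (hM g hg) hB (by unfold nm; positivity) (hM0.trans (hM g hg))
  obtain ⟨u, hu⟩ := balance C hC hBG e he0 _ hn1
  obtain ⟨w, hw⟩ := balance C hC hBG c hc _ hn2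
  refine ⟨g, hg, u * e, w * c, u * w⁻¹, ?_, ?_, ?_, fun v => ⟨hu v, hw v⟩⟩
  · rw [h3, Ideal.span_singleton_mul_left_unit u.isUnit]
  · rw [hgc, Ideal.span_singleton_mul_left_unit w.isUnit]
  · have h6 : (u : 𝓞 K) * e - ((u * w⁻¹ : (𝓞 K)ˣ) : 𝓞 K) * (w * c) = u * (e - c) := by
      have : ((w⁻¹ : (𝓞 K)ˣ) : 𝓞 K) * (w : 𝓞 K) = 1 := by simp
      rw [Units.val_mul]
      linear_combination (-(u : 𝓞 K) * c) * this
    rw [h6]
    refine d.mul_mem_left _ ?_
    have h7 : a * (e - c) ∈ d := by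
      have : a * (e - c) = -((a - b) * c) := by
        linear_combination -he
      rw [this]
      exact d.neg_mem (d.mul_mem_right _ hab)
    have h8 : (1 : 𝓞 K) ∈ Ideal.span {a} ⊔ d := by
      have : Ideal.span {a} ⊔ d = ⊤ := by
        rw [eq_top_iff, ← ham]
        exact sup_le_sup_left hmd _
      rw [this]
      trivial
    obtain ⟨x, hx, y, hy, hxy⟩ := Submodule.mem_sup.1 h8
    obtain ⟨z, rfl⟩ := Ideal.mem_span_singleton'.1 hx
    have h9 : e - c = z * (a * (e - c)) + y * (e - c) := by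
      calc e - c = 1 * (e - c) := (one_mul _).symm
        _ = (z * a + y) * (e - c) := by rw [hxy]
        _ = _ := by ring
    rw [h9]
    exact d.add_mem (d.mul_mem_left _ h7) (d.mul_mem_right _ hy)

/-- proportional pairs are equal -/
theorem eq_of_prop {I J I' J' : Ideal (𝓞 K)} (hJ : J ≠ ⊥) (h : I * J' = I' * J)
    (h1 : I ⊔ J = ⊤) (h2 : I' ⊔ J' = ⊤) (hI : I ≠ ⊥) : I = I' ∧ J = J' := by
  have c1 : IsCoprime I J := Ideal.isCoprime_iff_sup_eq.2 h1
  have c2 : IsCoprime I' J' := Ideal.isCoprime_iff_sup_eq.2 h2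
  have d1 : I ∣ I' := by
    refine c1.dvd_of_dvd_mul_right ?_
    rw [← h]
    exact Dvd.intro _ rfl
  have d2 : I' ∣ I := by
    refine c2.dvd_of_dvd_mul_right ?_
    rw [h]
    exact Dvd.intro _ rfl
  have e1 : I = I' := dvd_antisymm d1 d2
  refine ⟨e1, ?_⟩
  rw [← e1] at h
  exact (mul_left_cancel₀ hI h).symm

end LR

theorem pf_LR (hLM : T_LM) (hBG : T_BG) (hCR : T_CR) : T_LR := by
  classical
  intro K _ _
  obtain ⟨C, hC, hC'⟩ := hBG K
  obtain ⟨CL, hCL⟩ := hLM K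
  obtain ⟨G, hG0, hG⟩ := hCR K
  set n := Module.finrank ℚ K with hn
  have hn0 : n ≠ 0 := Module.finrank_pos.ne'
  -- a bound for the norms
  obtain ⟨M, hM1, hM⟩ : ∃ M : ℝ, 1 ≤ M ∧ ∀ g ∈ G, nm g ≤ M := by
    refine ⟨1 + ∑ g ∈ G, nm g, ?_, ?_⟩
    · have : 0 ≤ ∑ g ∈ G, nm g := Finset.sum_nonneg fun g _ => by unfold nm; positivity
      linarith
    · intro g hg
      have := Finset.single_le_sum (f := fun g => nm g) (s := G)
        (fun g _ => by unfold nm; positivity) hg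
      linarith
  refine ⟨G.card * (1 + |CL| * (C ^ (2 * n) * M ^ 2)), ?_⟩
  intro m d A B X hm hmd hA hB hX
  have hd : d ≠ ⊥ := by
    rintro rfl
    exact hm (le_bot_iff.1 hmd)
  have hnd : 0 < nm d := by
    unfold nm
    have : Ideal.absNorm d ≠ 0 := fun h => hd (Ideal.absNorm_eq_zero_iff.1 h)
    exact_mod_cast Nat.pos_of_ne_zero this
  -- the data
  have hdat : ∀ p : Ideal (𝓞 K) × Ideal (𝓞 K), p ∈ X → ∃ (g : Ideal (𝓞 K)) (α β : 𝓞 K)
      (η : (𝓞 K)ˣ), g ∈ G ∧ g * p.1 = Ideal.span {α} ∧ g * p.2 = Ideal.span {β} ∧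
      α - η * β ∈ d ∧ ∀ v : InfinitePlace K,
        v (α : K) ≤ C * (M * A) ^ (1 / (n : ℝ)) ∧ v (β : K) ≤ C * (M * B) ^ (1 / (n : ℝ)) := by
    intro p hp
    obtain ⟨h1, h2, h3⟩ := hX p hp
    obtain ⟨g, hg, α, β, η, h⟩ := pair_data C hC hC' G hG0 hG M hM m d hmd A B p h1 h2 h3
    exact ⟨g, α, β, η, hg, h⟩
  choose! g α β η hgG hga hgb hη hv using hdat
  -- the classes
  have hfin : (Set.range fun u : (𝓞 K)ˣ => Ideal.Quotient.mk d (u : 𝓞 K)).Finite := by
    haveI : Finite (𝓞 K ⧸ d) := Ideal.finiteQuotientOfFreeOfNeBot d hd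
    exact Set.toFinite _
  set U := hfin.toFinset with hU
  have hUc : U.card = uc d := by
    unfold uc
    rw [Set.ncard_eq_toFinset_card _ hfin]
  set R₁ := C * (M * A) ^ (1 / (n : ℝ)) with hR₁
  set R₂ := C * (M * B) ^ (1 / (n : ℝ)) with hR₂
  have hMA : 0 < M * A := by positivity
  have hMB : 0 < M * B := by positivity
  have hC0 : 0 < C := by linarith
  have hR₁0 : 0 < R₁ := mul_pos hC0 (Real.rpow_pos_of_pos hMA _)
  have hR₂0 : 0 < R₂ := mul_pos hC0 (Real.rpow_pos_of_pos hMB _)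
  have hRR : (R₁ * R₂) ^ n = C ^ (2 * n) * M ^ 2 * (A * B) := by
    rw [hR₁, hR₂, mul_pow, mul_pow, mul_pow, one_div, Real.rpow_inv_natCast_pow hMA.le hn0,
      Real.rpow_inv_natCast_pow hMB.le hn0]
    ring
  set F : ℝ := 1 + |CL| * (C ^ (2 * n) * M ^ 2 * (A * B)) / nm d with hF
  -- the map to the classes
  have hmaps : ∀ p ∈ X, (g p, Ideal.Quotient.mk d (η p : 𝓞 K)) ∈ G ×ˢ U := by
    intro p hp
    rw [Finset.mem_product]
    refine ⟨hgG p hp, ?_⟩
    rw [hU, Set.Finite.mem_toFinset]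
    exact ⟨η p, rfl⟩
  have hfib : ∀ q ∈ G ×ˢ U,
      ((X.filter fun p => (g p, Ideal.Quotient.mk d (η p : 𝓞 K)) = q).card : ℝ) ≤ F := by
    intro q hq
    set Z := X.filter fun p => (g p, Ideal.Quotient.mk d (η p : 𝓞 K)) = q with hZ
    have hZX : ∀ p ∈ Z, p ∈ X ∧ (g p, Ideal.Quotient.mk d (η p : 𝓞 K)) = q :=
      fun p hp => Finset.mem_filter.1 hp
    have hinj : Set.InjOn (fun p => (α p, β p)) (Z : Set (Ideal (𝓞 K) × Ideal (𝓞 K))) := by
      intro p hp p' hp' he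
      obtain ⟨hp1, hp2⟩ := hZX p hp
      obtain ⟨hp1', hp2'⟩ := hZX p' hp'
      have eg : g p = g p' := by
        have := hp2.trans hp2'.symm
        exact (Prod.mk.inj this).1
      have ea : α p = α p' := (Prod.mk.inj he).1
      have eb : β p = β p' := (Prod.mk.inj he).2
      have hg0 : g p ≠ ⊥ := hG0 _ (hgG p hp1)
      refine Prod.ext ?_ ?_
      · apply mul_left_cancel₀ hg0
        rw [hga p hp1, ea, ← hga p' hp1', eg]
      · apply mul_left_cancel₀ hg0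
        rw [hgb p hp1, eb, ← hgb p' hp1', eg]
    by_cases hnp : ∃ p ∈ Z, ∃ p' ∈ Z, α p * β p' ≠ α p' * β p
    · obtain ⟨p₀, hp₀, p₁, hp₁, hne⟩ := hnp
      have hL := hCL d (η p₀ : 𝓞 K) R₁ R₂ (Z.image fun p => (α p, β p)) hd hR₁0 hR₂0 ?_ ?_
      · rw [Finset.card_image_of_injOn hinj, hRR] at hL
        refine hL.trans ?_
        rw [hF]
        have h1 : CL * (C ^ (2 * n) * M ^ 2 * (A * B)) / nm d ≤
            |CL| * (C ^ (2 * n) * M ^ 2 * (A * B)) / nm d := by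
          refine div_le_div_of_nonneg_right ?_ hnd.le
          exact mul_le_mul_of_nonneg_right (le_abs_self _) (by positivity)
        linarith
      · intro x hx
        obtain ⟨p, hp, rfl⟩ := Finset.mem_image.1 hx
        obtain ⟨hp1, hp2⟩ := hZX p hp
        obtain ⟨hp1', hp2'⟩ := hZX p₀ hp₀
        refine ⟨?_, fun v => hv p hp1 v⟩
        have ee : Ideal.Quotient.mk d (η p : 𝓞 K) = Ideal.Quotient.mk d (η p₀ : 𝓞 K) := by
          have := hp2.trans hp2'.symm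
          exact (Prod.mk.inj this).2
        have h1 : (η p : 𝓞 K) - η p₀ ∈ d := Ideal.Quotient.eq.1 ee
        have h2 : α p - (η p₀ : 𝓞 K) * β p =
            (α p - η p * β p) + ((η p : 𝓞 K) - η p₀) * β p := by ring
        show α p - (η p₀ : 𝓞 K) * β p ∈ d
        rw [h2]
        exact d.add_mem (hη p hp1) (d.mul_mem_right _ h1)
      · exact ⟨_, Finset.mem_image_of_mem _ hp₀, _, Finset.mem_image_of_mem _ hp₁, hne⟩
    · push Not at hnp
      have h1 : Z.card ≤ 1 := by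
        rw [Finset.card_le_one]
        intro p hp p' hp'
        obtain ⟨hp1, hp2⟩ := hZX p hp
        obtain ⟨hp1', hp2'⟩ := hZX p' hp'
        have eg : g p = g p' := by
          have := hp2.trans hp2'.symm
          exact (Prod.mk.inj this).1
        have hg0 : g p ≠ ⊥ := hG0 _ (hgG p hp1)
        have h2 := hnp p hp p' hp'
        have h3 : (g p * g p) * (p.1 * p'.2) = (g p * g p) * (p'.1 * p.2) := by
          calc (g p * g p) * (p.1 * p'.2) = (g p * p.1) * (g p' * p'.2) := by rw [eg]; ring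
            _ = Ideal.span {α p * β p'} := by
              rw [hga p hp1, hgb p' hp1', Ideal.span_singleton_mul_span_singleton]
            _ = Ideal.span {α p' * β p} := by rw [h2]
            _ = (g p' * p'.1) * (g p * p.2) := by
              rw [hga p' hp1', hgb p hp1, Ideal.span_singleton_mul_span_singleton]
            _ = (g p * g p) * (p'.1 * p.2) := by rw [eg]; ring
        have h4 := mul_left_cancel₀ (mul_ne_zero hg0 hg0) h3
        obtain ⟨hI, hJ, hIJ, -⟩ := (hX p hp1).1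
        obtain ⟨hI', hJ', hIJ', -⟩ := (hX p' hp1').1
        obtain ⟨e1, e2⟩ := eq_of_prop hJ h4 hIJ hIJ' hI
        exact Prod.ext e1 e2
      have h2 : (Z.card : ℝ) ≤ 1 := by exact_mod_cast h1
      refine h2.trans ?_
      rw [hF]
      have : 0 ≤ |CL| * (C ^ (2 * n) * M ^ 2 * (A * B)) / nm d := by positivity
      linarith
  have hcard : (X.card : ℝ) = ∑ q ∈ G ×ˢ U,
      ((X.filter fun p => (g p, Ideal.Quotient.mk d (η p : 𝓞 K)) = q).card : ℝ) := by
    rw [Finset.card_eq_sum_card_fiberwise (f := fun p => (g p, Ideal.Quotient.mk d (η p : 𝓞 K)))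
      (t := G ×ˢ U) (fun p hp => hmaps p hp)]
    push_cast
    rfl
  rw [hcard]
  refine (Finset.sum_le_sum hfib).trans ?_
  rw [Finset.sum_const, Finset.card_product, hUc, nsmul_eq_mul]
  push_cast
  have h1 : F ≤ (1 + |CL| * (C ^ (2 * n) * M ^ 2)) * (1 + A * B / nm d) := by
    rw [hF]
    have h2 : 0 ≤ A * B / nm d := by positivity
    have h3 : 0 ≤ |CL| * (C ^ (2 * n) * M ^ 2) := by positivity
    have h4 : |CL| * (C ^ (2 * n) * M ^ 2 * (A * B)) / nm d =
      |CL| * (C ^ (2 * n) * M ^ 2) * (A * B / nm d) := by ring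
    rw [h4]
    nlinarith
  calc (G.card : ℝ) * (uc d : ℝ) * F ≤ (G.card : ℝ) * (uc d : ℝ) *
        ((1 + |CL| * (C ^ (2 * n) * M ^ 2)) * (1 + A * B / nm d)) :=
      mul_le_mul_of_nonneg_left h1 (by positivity)
    _ = _ := by ring

end Pool.Agent.H69.CV
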